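import Pool.Agent.MP_ca7024_gt.H50.Defs

/-! Signed crossing changes, Alexander colourings, and algebraic unknotting. -/

namespace Pool.Agent.MP_ca7024_gt.H42

open H50 H50.Kind

/-- A crossing change.  The list `o` gives the directions just below the crossing in an
orientation of the diagram.  The crossing `ov` is positive when its two strands are parallel,
`un` when they are antiparallel; `e` says whether the crossing is positive before the change. -/
def Change (e : Bool) (w w' : List Gen) : Prop :=
  ∃ u v o q a, o ∈ orients u [] ∧ [] ∈ orients ((q, cr a) :: v) o ∧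
    (e = true ↔ (a = true ↔ o[q]? = o[q + 1]?)) ∧
    w = u ++ (q, cr a) :: v ∧ w' = u ++ (q, cr !a) :: v

variable {R : Type} [CommRing R]

/-- The same colour with the opposite direction. -/
def bar (a : Bool × R) : Bool × R := (!a.1, a.2)

/-- The Alexander quandle: the colour of a strand `b` after it has passed under the strand `a`. -/
def act (t : Rˣ) (a b : Bool × R) : Bool × R :=
  (b.1, a.2 + ((if a.1 then t else t⁻¹ : Rˣ) : R) * (b.2 - a.2))

/-- Directions and colours `s` below an elementary tangle are compatible with `r` above it. -/
def Slice (t : Rˣ) : ℕ → Kind → List (Bool × R) → List (Bool × R) → Prop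
  | 0, cup, s, r => ∃ c, r = c :: bar c :: s
  | 0, cap, a :: b :: s, r => b = bar a ∧ r = s
  | 0, ov, a :: b :: s, r => r = act t a b :: a :: s
  | 0, un, a :: b :: s, r => r = b :: act t (bar b) a :: s
  | p + 1, k, a :: s, r => ∃ r', Slice t p k s r' ∧ r = a :: r'
  | _, _, _, _ => False

/-- An orientation and Alexander colouring of the word `w` that starts with `s`: `S` lists the
slices above the letters. -/
def Col (t : Rˣ) : List Gen → List (Bool × R) → List (List (Bool × R)) → Prop
  | [], _, S => S = []
  | g :: w, s, S => ∃ r S', Slice t g.1 g.2 s r ∧ Col t w r S' ∧ S = r :: S'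

/-- Alexander polynomial one: every Alexander colouring, over every commutative ring, is
constant. -/
def AlexOne (w : List Gen) : Prop :=
  ∀ (R : Type) [CommRing R] (t : Rˣ) (S : List (List (Bool × R))), Col t w [] S →
    ∃ c : R, ∀ s ∈ S, ∀ x ∈ s, x.2 = c

/-- `AlgUnknots w p n`: isotopies, `p` changes of a positive crossing and `n` changes of a negative
crossing turn `w` into a diagram with Alexander polynomial one. -/
inductive AlgUnknots : List Gen → ℕ → ℕ → Prop
  | zero (w : List Gen) : AlexOne w → AlgUnknots w 0 0
  | pos (w w₁ w₂ : List Gen) (p n : ℕ) :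
      Iso w w₁ → Change true w₁ w₂ → AlgUnknots w₂ p n → AlgUnknots w (p + 1) n
  | neg (w w₁ w₂ : List Gen) (p n : ℕ) :
      Iso w w₁ → Change false w₁ w₂ → AlgUnknots w₂ p n → AlgUnknots w p (n + 1)

end Pool.Agent.MP_ca7024_gt.H42
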