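import Pool.Agent.MP_ca7024_gt.H42.ADefs
import Pool.Agent.MP_ca7024_gt.H50.Final

/-! Isotopies of tangles in a context, and fingers. -/

set_option linter.unusedSimpArgs false

namespace Pool.Agent.MP_ca7024_gt.H42

open H50 H50.Kind

theorem tangle_add (w : List Gen) (a b k : ℕ) (h : Tangle a w b) : Tangle (a + k) w (b + k) := by
  induction w generalizing a with
  | nil => exact congrArg (· + k) h
  | cons g w ih =>
    refine ⟨by have := h.1; omega, ?_⟩
    have := ih _ h.2
    have e : a + k - win g.2 + wout g.2 = a - win g.2 + wout g.2 + k := by have := h.1; omega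
    rwa [e]

theorem tapp {u v : List Gen} {a b c : ℕ} (h : Tangle a u b) (h' : Tangle b v c) :
    Tangle a (u ++ v) c := (tangle_append _ _ _ _).2 ⟨b, h, h'⟩

/-- isotopic in every context -/
structure TI (a b : ℕ) (w w' : List Gen) : Prop where
  l : Tangle a w b
  r : Tangle a w' b
  iso : ∀ u v k, Tangle 0 u (a + k) → Tangle (b + k) v 0 → Iso (u ++ w ++ v) (u ++ w' ++ v)

theorem TI.refl {a b : ℕ} {w : List Gen} (h : Tangle a w b) : TI a b w w :=
  ⟨h, h, fun _ _ _ _ _ => Relation.EqvGen.refl _⟩

theorem TI.symm {a b : ℕ} {w w' : List Gen} (h : TI a b w w') : TI a b w' w :=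
  ⟨h.r, h.l, fun u v k h1 h2 => Relation.EqvGen.symm _ _ (h.iso u v k h1 h2)⟩

theorem TI.trans {a b : ℕ} {w w' w'' : List Gen} (h : TI a b w w') (h' : TI a b w' w'') :
    TI a b w w'' :=
  ⟨h.l, h'.r, fun u v k h1 h2 =>
    Relation.EqvGen.trans _ _ _ (h.iso u v k h1 h2) (h'.iso u v k h1 h2)⟩

theorem TI.left {a b c : ℕ} {x w w' : List Gen} (hx : Tangle c x a) (h : TI a b w w') :
    TI c b (x ++ w) (x ++ w') :=
  ⟨tapp hx h.l, tapp hx h.r, fun u v k h1 h2 => by
    simpa using h.iso (u ++ x) v k (tapp h1 (tangle_add _ _ _ k hx)) h2⟩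

theorem TI.right {a b c : ℕ} {x w w' : List Gen} (h : TI a b w w') (hx : Tangle b x c) :
    TI a c (w ++ x) (w' ++ x) :=
  ⟨tapp h.l hx, tapp h.r hx, fun u v k h1 h2 => by
    simpa using h.iso u (x ++ v) k h1 (tapp (tangle_add _ _ _ k hx) h2)⟩

theorem TI.move {a b : ℕ} {x l r y : List Gen} (hm : Move l r) (h : Tangle a (x ++ l ++ y) b)
    (h' : Tangle a (x ++ r ++ y) b) : TI a b (x ++ l ++ y) (x ++ r ++ y) :=
  ⟨h, h', fun u v k h1 h2 => Relation.EqvGen.rel _ _
    ⟨tapp (tapp h1 (tangle_add _ _ _ k h)) h2, tapp (tapp h1 (tangle_add _ _ _ k h')) h2,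
      u ++ x, l, r, y ++ v, hm, by simp, by simp⟩⟩

/-- Check a sequence of coded moves. -/
def chk (a b : ℕ) : List ℕ → List Gen → List Gen → Bool
  | [], w, t => decide (w = t) && tangleB a w b
  | n :: ns, w, t => match app w n with
    | none => false
    | some w' => tangleB a w b && tangleB a w' b && chk a b ns w' t

theorem chk_sound (a b : ℕ) (ns : List ℕ) (w t : List Gen) (h : chk a b ns w t = true) :
    TI a b w t := by
  induction ns generalizing w with
  | nil =>
    simp only [chk, Bool.and_eq_true, decide_eq_true_eq] at h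
    obtain ⟨rfl, h⟩ := h
    exact TI.refl (tangle_of_B _ _ _ h)
  | cons n ns ih =>
    simp only [chk] at h
    split at h
    · simp at h
    · rename_i w' hw'
      simp only [Bool.and_eq_true] at h
      have h0 := tangle_of_B _ _ _ h.1.1
      have h1 := tangle_of_B _ _ _ h.1.2
      refine TI.trans ?_ (ih w' h.2)
      unfold app at hw'
      split_ifs at hw'
      · obtain ⟨u, v, rfl, rfl⟩ := repl_spec _ _ _ _ _ hw'
        exact TI.move (mv_move _ _ _ _ _ _ _ _) h0 h1
      · obtain ⟨u, v, rfl, rfl⟩ := repl_spec _ _ _ _ _ hw'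
        exact (TI.move (mv_move _ _ _ _ _ _ _ _) h1 h0).symm

/-- the string link -/
def wN : List Gen := [(1, cup), (0, un), (2, ov), (0, un), (2, ov), (0, un), (1, cap)]
/-- its mirror image -/
def wP : List Gen := [(1, cup), (0, ov), (2, un), (0, ov), (2, un), (0, ov), (1, cap)]
/-- roots of the fingers -/
def cups : List Gen := [(1, cup), (1, cup)]
/-- tips of the fingers -/
def caps : List Gen := [(4, cap), (2, cap)]
/-- first finger around the second strand -/
def wO : List Gen := [(1, un), (2, un), (2, un), (1, un)]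
/-- inverse -/
def wO' : List Gen := [(1, ov), (2, ov), (2, ov), (1, ov)]
/-- first finger around both strands with opposite signs -/
def wU : List Gen := [(1, un), (2, un), (0, un), (1, un), (1, un), (0, un), (2, ov), (1, ov),
  (1, ov), (2, ov), (2, ov), (1, ov)]
/-- inverse -/
def wU' : List Gen := [(1, un), (2, un), (2, un), (1, un), (1, un), (2, un), (0, ov), (1, ov),
  (1, ov), (0, ov), (2, ov), (1, ov)]
/-- first finger around the second finger -/
def wH : List Gen := [(3, un), (4, un), (2, un), (3, un), (3, un), (4, un), (2, un), (3, un)]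
/-- inverse -/
def wH' : List Gen := [(3, ov), (2, ov), (4, ov), (3, ov), (3, ov), (2, ov), (4, ov), (3, ov)]
/-- twist of the first finger -/
def wT : List Gen := [(2, un), (2, un)]
/-- inverse -/
def wT' : List Gen := [(2, ov), (2, ov)]

theorem orients_append (u v : List Gen) (o : List Bool) :
    orients (u ++ v) o = (orients u o).flatMap (orients v) := by
  induction u generalizing o with
  | nil => simp [orients]
  | cons g u ih => simp [orients, List.flatMap_assoc, funext ih]

/-- a word that keeps directions -/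
def Pure6 (w : List Gen) : Prop := ∀ a b c d e f s,
  orients w (a :: b :: c :: d :: e :: f :: s) = [a :: b :: c :: d :: e :: f :: s]

/-- a word that keeps directions -/
def Pure (w : List Gen) : Prop := ∀ a b s, orients w (a :: b :: s) = [a :: b :: s]

theorem Pure6.app {u v : List Gen} (h : Pure6 u) (h' : Pure6 v) : Pure6 (u ++ v) :=
  fun a b c d e f s => by simp [orients_append, h a b c d e f s, h' a b c d e f s]

theorem Pure.app {u v : List Gen} (h : Pure u) (h' : Pure v) : Pure (u ++ v) :=
  fun a b s => by simp [orients_append, h a b s, h' a b s]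

theorem Pure.six {u : List Gen} (h : Pure u) : Pure6 u := fun _ _ _ _ _ _ _ => h _ _ _

theorem pure_nil : Pure [] := fun _ _ _ => rfl
theorem pure_N : Pure wN := fun a b s => by cases a <;> cases b <;> rfl
theorem pure_P : Pure wP := fun a b s => by cases a <;> cases b <;> rfl

theorem pure_wrap {w : List Gen} (h : Pure6 w) : Pure (cups ++ w ++ caps) := fun a b s => by
  unfold Pure6 at h
  cases b <;> simp [orients_append, cups, caps, orients, dirs, h]

/-- `w` with fingers alongside is the tangle `x` once the fingers are retracted -/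
structure Fing (w x : List Gen) : Prop where
  tan : Tangle 6 w 6
  tx : Tangle 2 x 2
  ret : TI 6 2 (w ++ caps) (caps ++ x)
  pure : Pure6 w

theorem Fing.app {u v x y : List Gen} (h : Fing u x) (h' : Fing v y) : Fing (u ++ v) (x ++ y) :=
  ⟨tapp h.tan h'.tan, tapp h.tx h'.tx, by
    have h1 := TI.left h.tan h'.ret
    have h2 := h.ret.right h'.tx
    simp only [List.append_assoc] at h1 h2 ⊢
    exact h1.trans h2, h.pure.app h'.pure⟩

theorem fing_of (w x : List Gen) (ns : List ℕ) (h : (tangleB 6 w 6 && tangleB 2 x 2 &&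
    chk 6 2 ns (w ++ caps) (caps ++ x)) = true) (hp : Pure6 w) : Fing w x := by
  simp only [Bool.and_eq_true] at h
  exact ⟨tangle_of_B _ _ _ h.1.1, tangle_of_B _ _ _ h.1.2, chk_sound _ _ _ _ _ h.2, hp⟩

theorem fing_nil : Fing [] [] := fing_of _ _ [] (by decide) fun _ _ _ _ _ _ _ => rfl
theorem fing_O : Fing wO [] := fing_of _ _ [567361, 393265, 262219, 139312, 43, 43072]
  (by decide +kernel) fun _ _ _ _ _ _ _ => rfl
theorem fing_O' : Fing wO' [] := fing_of _ _ [567361, 401457, 270411, 131120, 8235, 43072]
  (by decide +kernel) fun _ _ _ _ _ _ _ => rfl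
theorem fing_U : Fing wU [] := fing_of _ _ [1615937, 1450033, 1318987, 1179696, 1056811, 925745,
  794699, 655377, 524331, 401424, 262155, 139312, 43, 43072]
  (by decide +kernel) fun _ _ _ _ _ _ _ => rfl
theorem fing_U' : Fing wU' [] := fing_of _ _ [1615937, 1450033, 1318987, 1187857, 1056811, 917520,
  794635, 663600, 524331, 393265, 262219, 139312, 43, 43072]
  (by decide +kernel) fun _ _ _ _ _ _ _ => rfl
theorem fing_H : Fing wH [] := fing_of _ _ [780353, 917617, 786571, 655441, 524395, 401488,
  262219, 139376, 107] (by decide +kernel) fun _ _ _ _ _ _ _ => rfl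
theorem fing_H' : Fing wH' [] := fing_of _ _ [925809, 794763, 663633, 532587, 393296, 354369,
  139339, 131184, 8299] (by decide +kernel) fun _ _ _ _ _ _ _ => rfl
theorem fing_T : Fing wT [] := fing_of _ _ [305217, 131145, 73, 43072]
  (by decide +kernel) fun _ _ _ _ _ _ _ => rfl
theorem fing_T' : Fing wT' [] := fing_of _ _ [305217, 139337, 8265, 43072]
  (by decide +kernel) fun _ _ _ _ _ _ _ => rfl
theorem fing_N : Fing wN wN := fing_of _ _ [830496, 960544, 715776, 845824, 576576, 706624,
  453632, 583680, 314432, 444480, 191488, 321536, 34848, 164896] (by decide +kernel) pure_N.six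
theorem fing_P : Fing wP wP := fing_of _ _ [830496, 960544, 707584, 837632, 584768, 714816,
  445440, 575488, 322624, 452672, 183296, 313344, 34848, 164896] (by decide +kernel) pure_P.six
theorem fing_C (e : Bool) : Fing [(3, cr !e), (3, cr e)] [] := by
  cases e
  · exact fing_of _ _ [8299] (by decide +kernel) fun _ _ _ _ _ _ _ => rfl
  · exact fing_of _ _ [107] (by decide +kernel) fun _ _ _ _ _ _ _ => rfl

theorem Fing.close {w x : List Gen} (h : Fing w x) : TI 2 2 (cups ++ w ++ caps) x := by
  have h1 := TI.left (tangle_of_B cups 2 6 (by decide)) h.ret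
  have h2 := (chk_sound 2 2 [305217, 131107, 35] (cups ++ caps) [] (by decide +kernel)).right h.tx
  simp only [List.append_assoc, List.nil_append] at h1 h2 ⊢
  exact h1.trans h2

/-- powers of a word -/
def pw (w : List Gen) : ℕ → List Gen
  | 0 => []
  | n + 1 => pw w n ++ w

theorem fing_pw {w : List Gen} (h : Fing w w) (n : ℕ) : Fing (pw w n) (pw w n) := by
  induction n with
  | zero => exact fing_nil
  | succ n ih => exact ih.app h

theorem pure_pw {w : List Gen} (h : Pure w) (n : ℕ) : Pure (pw w n) := by
  induction n with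
  | zero => exact pure_nil
  | succ n ih => exact ih.app h

end Pool.Agent.MP_ca7024_gt.H42
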