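import Pool.Agent.MP_ca7024_gt.H42.Run

/-! The action of finger words and of the string links on colourings. -/

set_option linter.unusedSimpArgs false

namespace Pool.Agent.MP_ca7024_gt.H42

open H50 H50.Kind LaurentPolynomial

variable {R : Type} [CommRing R]

/-- the slice above a crossing -/
def go1 (t : Rˣ) : ℕ → Kind → List (Bool × R) → List (Bool × R)
  | 0, ov, a :: b :: s => act t a b :: a :: s
  | 0, un, a :: b :: s => b :: act t (bar b) a :: s
  | p + 1, k, a :: s => a :: go1 t p k s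
  | _, _, s => s

/-- the slice above a braid -/
def go (t : Rˣ) : List Gen → List (Bool × R) → List (Bool × R)
  | [], s => s
  | g :: w, s => go t w (go1 t g.1 g.2 s)

theorem st_go (t : Rˣ) (p : ℕ) (k : Kind) (hk : k = ov ∨ k = un) (s r : List (Bool × R))
    (X : List R) (h : St t p k s r X) : X = [] ∧ r = go1 t p k s := by
  induction p generalizing s r with
  | zero =>
    rcases hk with rfl | rfl <;> rcases s with _ | ⟨a, _ | ⟨b, s⟩⟩
    exacts [h.elim, h.elim, h.symm, h.elim, h.elim, h.symm]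
  | succ p ih =>
    rcases s with _ | ⟨a, s⟩
    · cases k <;> exact h.elim
    have h' : ∃ r', St t p k s r' X ∧ r = a :: r' := by cases k <;> exact h
    obtain ⟨r', h1, rfl⟩ := h'
    obtain ⟨rfl, rfl⟩ := ih s r' h1
    exact ⟨rfl, by cases k <;> rfl⟩

theorem rn_go (t : Rˣ) (w : List Gen) (hw : ∀ g ∈ w, g.2 = ov ∨ g.2 = un) (s r : List (Bool × R))
    (X : List R) (h : Rn t w s r X) : X = [] ∧ r = go t w s := by
  induction w generalizing s X with
  | nil => exact h.symm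
  | cons g w ih =>
    obtain ⟨m, Y, Z, h1, h2, rfl⟩ := h
    obtain ⟨rfl, rfl⟩ := st_go t _ _ (hw g (by simp)) _ _ _ h1
    obtain ⟨rfl, rfl⟩ := ih (fun g hg => hw g (by simp [hg])) _ _ h2
    exact ⟨rfl, rfl⟩

theorem eff_U (t : Rˣ) : Eff t wU 1 1 ((1 - ↑t⁻¹) ^ 2) 0 0 := by
  intro a b x D u E s r X h
  have := t.mul_inv
  obtain ⟨rfl, rfl⟩ := rn_go t _ (by decide) _ _ _ h
  simp [go, go1, wU, six, act, bar]
  grind

theorem eff_U' (t : Rˣ) : Eff t wU' (-1) (-1) (t + ↑t⁻¹ - 2) 0 0 := by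
  intro a b x D u E s r X h
  have := t.mul_inv
  obtain ⟨rfl, rfl⟩ := rn_go t _ (by decide) _ _ _ h
  simp [go, go1, wU', six, act, bar]
  grind

theorem eff_H (t : Rˣ) : Eff t wH 0 0 0 (-1) (-1) := by
  intro a b x D u E s r X h
  have := t.mul_inv
  obtain ⟨rfl, rfl⟩ := rn_go t _ (by decide) _ _ _ h
  simp [go, go1, wH, six, act, bar]
  grind

theorem eff_H' (t : Rˣ) : Eff t wH' 0 0 0 1 1 := by
  intro a b x D u E s r X h
  have := t.mul_inv
  obtain ⟨rfl, rfl⟩ := rn_go t _ (by decide) _ _ _ h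
  simp [go, go1, wH', six, act, bar]
  grind

theorem eff_T (t : Rˣ) : Eff t wT 0 0 (1 - ↑t⁻¹) 0 0 := by
  intro a b x D u E s r X h
  have := t.mul_inv
  obtain ⟨rfl, rfl⟩ := rn_go t _ (by decide) _ _ _ h
  simp [go, go1, wT, six, act, bar]
  grind

theorem eff_T' (t : Rˣ) : Eff t wT' 0 0 (↑t⁻¹ - 1) 0 0 := by
  intro a b x D u E s r X h
  have := t.mul_inv
  obtain ⟨rfl, rfl⟩ := rn_go t _ (by decide) _ _ _ h
  simp [go, go1, wT', six, act, bar]
  grind

theorem eff_nil (t : Rˣ) : Eff t [] 0 0 0 0 0 := by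
  rintro a b x D u E s r X ⟨rfl, rfl⟩
  simp

theorem Eff.app {t : Rˣ} {W W' : List Gen} {y yb f h hb y' yb' f' h' hb' : R}
    (H : Eff t W y yb f h hb) (H' : Eff t W' y' yb' f' h' hb') :
    Eff t (W ++ W') (y + y') (yb + yb') (f + f' + (t - 1) * (1 - ↑t⁻¹ ^ 2) * y' * yb) (h + h')
      (hb + hb') := by
  intro a b x D u E s r X hr
  obtain ⟨m, Y, Z, h1, h2, rfl⟩ := rn_append _ _ _ _ _ _ hr
  obtain ⟨rfl, rfl⟩ := H _ _ _ _ _ _ _ _ _ h1
  obtain ⟨rfl, rfl⟩ := H' _ _ _ _ _ _ _ _ _ h2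
  exact ⟨rfl, six_congr (by ring) (by ring) (by ring) rfl (by ring) rfl⟩

theorem Eff.up {t : Rˣ} {W : List Gen} {y yb f h hb : R} (H : Eff t W y yb f h hb) :
    Eff t (wO ++ W ++ wO') (t * y) (↑t⁻¹ * yb)
      (f + (t - 1) * (1 - ↑t⁻¹) * (↑t⁻¹ ^ 2 * yb - t * y)) (t * h) (↑t⁻¹ * hb) := by
  intro a b x D u E s r X hr
  obtain ⟨m, Y, Z, h1, h2, rfl⟩ := rn_append _ _ _ _ _ _ hr
  obtain ⟨m, Y, Z, h0, h1, rfl⟩ := rn_append _ _ _ _ _ _ h1
  obtain ⟨rfl, rfl⟩ := rn_O _ _ _ _ _ _ _ _ _ _ h0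
  obtain ⟨rfl, rfl⟩ := H _ _ _ _ _ _ _ _ _ h1
  obtain ⟨rfl, rfl⟩ := rn_O' _ _ _ _ _ _ _ _ _ _ h2
  have := t.mul_inv
  exact ⟨rfl, six_congr (by ring) (by grind) (by grind) (by grind) (by ring) rfl⟩

theorem Eff.down {t : Rˣ} {W : List Gen} {y yb f h hb : R} (H : Eff t W y yb f h hb) :
    Eff t (wO' ++ W ++ wO) (↑t⁻¹ * y) (t * yb)
      (f - (t - 1) * (1 - ↑t⁻¹) * (↑t⁻¹ * yb - y)) (↑t⁻¹ * h) (t * hb) := by
  intro a b x D u E s r X hr
  obtain ⟨m, Y, Z, h1, h2, rfl⟩ := rn_append _ _ _ _ _ _ hr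
  obtain ⟨m, Y, Z, h0, h1, rfl⟩ := rn_append _ _ _ _ _ _ h1
  obtain ⟨rfl, rfl⟩ := rn_O' _ _ _ _ _ _ _ _ _ _ h0
  obtain ⟨rfl, rfl⟩ := H _ _ _ _ _ _ _ _ _ h1
  obtain ⟨rfl, rfl⟩ := rn_O _ _ _ _ _ _ _ _ _ _ h2
  have := t.mul_inv
  exact ⟨rfl, six_congr (by ring) (by grind) (by grind) (by grind) (by ring) rfl⟩

/-- Laurent polynomials -/
abbrev La := ℤ[T;T⁻¹]

/-- the variable -/
noncomputable def tt : La := T 1
/-- its inverse -/
noncomputable def ss : La := T (-1)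

/-- evaluation -/
noncomputable def ev (t : Rˣ) : La →+* R := eval₂ (Int.castRingHom R) t

@[simp] theorem ev_tt (t : Rˣ) : ev t tt = t := by simp [ev, tt]
@[simp] theorem ev_ss (t : Rˣ) : ev t ss = ↑t⁻¹ := by simp [ev, ss]
@[simp] theorem inv_tt : invert tt = ss := by simp [tt, ss]
@[simp] theorem inv_ss : invert ss = tt := by simp [tt, ss]
@[simp] theorem inv_inv' (y : La) : invert (invert y) = y := involutive_invert y
theorem tt_ss : tt * ss = 1 := by rw [tt, ss, ← T_add]; rfl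

/-- realisable actions -/
def Re (y f h : La) : Prop := ∃ W, Fing W [] ∧ ∀ (R : Type) [CommRing R] (t : Rˣ),
  Eff t W (ev t y) (ev t (invert y)) (ev t f) (ev t h) (ev t (invert h))

theorem Re.congr {y f h y' f' h' : La} (H : Re y f h) (h1 : y = y') (h2 : f = f') (h3 : h = h') :
    Re y' f' h' := h1 ▸ h2 ▸ h3 ▸ H

theorem Re.app {y f h y' f' h' : La} (H : Re y f h) (H' : Re y' f' h') :
    Re (y + y') (f + f' + (tt - 1) * (1 - ss ^ 2) * y' * invert y) (h + h') := by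
  obtain ⟨W, h1, h2⟩ := H
  obtain ⟨W', h3, h4⟩ := H'
  exact ⟨W ++ W', h1.app h3, fun R _ t => by simpa using (h2 R t).app (h4 R t)⟩

theorem Re.up {y f h : La} (H : Re y f h) :
    Re (tt * y) (f + (tt - 1) * (1 - ss) * (ss ^ 2 * invert y - tt * y)) (tt * h) := by
  obtain ⟨W, h1, h2⟩ := H
  exact ⟨wO ++ W ++ wO', (fing_O.app h1).app fing_O', fun R _ t => by simpa using (h2 R t).up⟩

theorem Re.down {y f h : La} (H : Re y f h) :
    Re (ss * y) (f - (tt - 1) * (1 - ss) * (ss * invert y - y)) (ss * h) := by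
  obtain ⟨W, h1, h2⟩ := H
  exact ⟨wO' ++ W ++ wO, (fing_O'.app h1).app fing_O, fun R _ t => by simpa using (h2 R t).down⟩

theorem re_zero : Re 0 0 0 := ⟨[], fing_nil, fun R _ t => by simpa using eff_nil t⟩
theorem re_U : Re 1 ((1 - ss) ^ 2) 0 := ⟨_, fing_U, fun R _ t => by simpa using eff_U t⟩
theorem re_U' : Re (-1) (tt + ss - 2) 0 := ⟨_, fing_U', fun R _ t => by
  simpa [map_ofNat] using eff_U' t⟩
theorem re_H : Re 0 0 (-1) := ⟨_, fing_H, fun R _ t => by simpa using eff_H t⟩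
theorem re_H' : Re 0 0 1 := ⟨_, fing_H', fun R _ t => by simpa using eff_H' t⟩
theorem re_T : Re 0 (1 - ss) 0 := ⟨_, fing_T, fun R _ t => by simpa using eff_T t⟩
theorem re_T' : Re 0 (ss - 1) 0 := ⟨_, fing_T', fun R _ t => by simpa using eff_T' t⟩

theorem la_ind (M : La → Prop) (h0 : M 0) (h1 : M 1) (h2 : M (-1))
    (ha : ∀ p q, M p → M q → M (p + q)) (hu : ∀ p, M p → M (tt * p))
    (hd : ∀ p, M p → M (ss * p)) (p : La) : M p := by
  refine LaurentPolynomial.induction_on p (fun a => ?_) (ha _ _) (fun n a h => ?_) fun n a h => ?_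
  · induction a using Int.induction_on with
    | zero => simpa using h0
    | succ i ih => simpa using ha _ _ ih h1
    | pred i ih => simpa [sub_eq_add_neg] using ha _ _ ih h2
  · convert hu _ h using 1
    rw [T_add, tt]; ring
  · convert hd _ h using 1
    rw [sub_eq_add_neg, T_add, ss]; ring

theorem re_h (p : La) : Re 0 0 p :=
  la_ind _ re_zero re_H' re_H (fun _ _ h h' => (h.app h').congr (by simp) (by simp) rfl)
    (fun _ h => h.up.congr (by simp) (by simp) rfl)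
    (fun _ h => h.down.congr (by simp) (by simp) rfl) p

theorem re_c (c : ℤ) : Re 0 ((1 - ss) * C c) 0 := by
  induction c using Int.induction_on with
  | zero => simpa using re_zero
  | succ i ih => exact (ih.app re_T).congr (by simp) (by simp; ring) (by simp)
  | pred i ih => exact (ih.app re_T').congr (by simp) (by simp; ring) (by simp)

theorem re_y (y : La) :
    ∃ f, Re y f 0 ∧ Re (-y) ((tt - 1) * (1 - ss ^ 2) * y * invert y - f) 0 := by
  have := tt_ss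
  refine la_ind (fun y => ∃ f, Re y f 0 ∧ Re (-y) ((tt - 1) * (1 - ss ^ 2) * y * invert y - f) 0)
    ⟨0, re_zero, by simpa using re_zero⟩ ⟨_, re_U, re_U'.congr rfl (by simp; grind) rfl⟩
    ⟨_, re_U', re_U.congr (by simp) (by simp; grind) rfl⟩ ?_ ?_ ?_ y
  · rintro p q ⟨f, h1, h2⟩ ⟨g, h3, h4⟩
    exact ⟨_, (h1.app h3).congr rfl rfl (by simp),
      (h4.app h2).congr (by ring) (by simp; ring) (by simp)⟩
  · rintro p ⟨f, h1, h2⟩
    exact ⟨_, h1.up.congr rfl rfl (by simp), h2.up.congr (by ring) (by simp; grind) (by simp)⟩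
  · rintro p ⟨f, h1, h2⟩
    exact ⟨_, h1.down.congr rfl rfl (by simp), h2.down.congr (by ring) (by simp; grind) (by simp)⟩

theorem symdec (g : La) (h : invert g = g) : ∃ (c : ℤ) (p : La), g = C c + p + invert p := by
  classical
  refine ⟨g.coeff 0, ⟨g.coeff.filter (0 < ·)⟩, ?_⟩
  ext n
  have h1 : g.coeff (-n) = g.coeff n := by rw [← invert_apply, h]
  simp only [AddMonoidAlgebra.coeff_add, Finsupp.add_apply, invert_apply, Finsupp.filter_apply,
    ← single_eq_C, AddMonoidAlgebra.coeff_single, Finsupp.single_apply]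
  rcases lt_trichotomy n 0 with h0 | h0 | h0
  · rw [if_neg (by omega), if_neg (by omega), if_pos (by omega), h1]; simp
  · subst h0; simp
  · rw [if_neg (by omega), if_pos (by omega), if_neg (by omega)]; simp

/-- first polynomial -/
def al (t s : R) : R := t - 1 + s ^ 2
/-- shift -/
def c0 (t s : R) : R := s - 2 + 2 * t - t ^ 2
/-- shift of a power -/
def cg (t s : R) : ℕ → R
  | 0 => 0
  | n + 1 => cg t s n * al s t + al t s ^ n * c0 t s

theorem cg_eq (t s : R) (h : t * s = 1) (n : ℕ) :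
    (1 + s) * cg t s n = al t s ^ n - al s t ^ n ∧
      cg t s n * (al t s - al s t) = c0 t s * (al t s ^ n - al s t ^ n) := by
  have h0 : (1 + s) * c0 t s = al t s - al s t := by unfold c0 al; grind
  induction n with
  | zero => simp [cg]
  | succ n ih =>
    rw [cg, pow_succ, pow_succ]
    exact ⟨by linear_combination al s t * ih.1 + al t s ^ n * h0, by
      linear_combination al s t * ih.2⟩

theorem al_cop (t s : R) (h : t * s = 1) : IsCoprime (al t s) (al s t) :=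
  ⟨-s ^ 2, s ^ 2 * (1 + s), by unfold al; grind⟩

theorem cop_par {p q x y : R} (h : IsCoprime p q) (e : p * x = q * y) :
    ∃ v, x = q * v ∧ y = p * v := by
  obtain ⟨a, b, h⟩ := h
  exact ⟨a * y + b * x, by linear_combination (-x) * h + a * e, by
    linear_combination (-y) * h - b * e⟩

/-- two parallel strands -/
def two (a d : R) (s : List (Bool × R)) : List (Bool × R) := (true, a) :: (true, a - d) :: s

theorem rn_N (t : Rˣ) (a d : R) (s r X) (h : Rn t wN (two a d s) r X) :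
    ∃ v, d = al (↑t⁻¹) ↑t * v ∧ r = two (a + c0 (↑t) ↑t⁻¹ * v) (al (↑t) ↑t⁻¹ * v) s ∧
      (v = 0 → ∀ x ∈ X, x = a) := by
  have := t.mul_inv
  obtain ⟨_, _, _, ⟨_, ⟨⟨e, x⟩, rfl, rfl⟩, rfl⟩, h, rfl⟩ := h
  obtain ⟨m, Y, Z, h1, h2, rfl⟩ := rn_append t
    [(0, un), (2, ov), (0, un), (2, ov), (0, un)] [(1, cap)] _ _ _ h
  obtain ⟨rfl, rfl⟩ := rn_go t _ (by decide) _ _ _ h1
  cases e <;> simp [Rn, St, go, go1, act, bar] at h2
  obtain ⟨⟨h1, rfl⟩, rfl⟩ := h2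
  refine ⟨↑t⁻¹ ^ 2 * (d - ↑t⁻¹ ^ 2 * (x - a)), ?_, ?_, ?_⟩
  · unfold al; grind
  · simp [two, c0, al]; grind
  · simp; grind

theorem rn_P (t : Rˣ) (a d : R) (s r X) (h : Rn t wP (two a d s) r X) :
    ∃ v, d = al (↑t) ↑t⁻¹ * v ∧ r = two (a - c0 (↑t) ↑t⁻¹ * v) (al (↑t⁻¹) ↑t * v) s ∧
      (v = 0 → ∀ x ∈ X, x = a) := by
  have := t.mul_inv
  obtain ⟨_, _, _, ⟨_, ⟨⟨e, x⟩, rfl, rfl⟩, rfl⟩, h, rfl⟩ := h
  obtain ⟨m, Y, Z, h1, h2, rfl⟩ := rn_append t
    [(0, ov), (2, un), (0, ov), (2, un), (0, ov)] [(1, cap)] _ _ _ h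
  obtain ⟨rfl, rfl⟩ := rn_go t _ (by decide) _ _ _ h1
  cases e <;> simp [Rn, St, go, go1, act, bar] at h2
  obtain ⟨⟨h1, rfl⟩, rfl⟩ := h2
  refine ⟨d - t * (t - 1 - ↑t⁻¹) * (x - a), ?_, ?_, ?_⟩
  · unfold al; grind
  · simp [two, c0, al]; grind
  · simp; grind

theorem rn_Np (t : Rˣ) (n : ℕ) (a d : R) (s r X) (h : Rn t (pw wN n) (two a d s) r X) :
    ∃ v, d = al (↑t⁻¹) ↑t ^ n * v ∧
      r = two (a + cg (↑t) (↑t⁻¹) n * v) (al (↑t) ↑t⁻¹ ^ n * v) s ∧ (v = 0 → ∀ x ∈ X, x = a) := by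
  induction n generalizing r X with
  | zero =>
    obtain ⟨rfl, rfl⟩ := h
    exact ⟨d, by simp, by simp [cg], by simp⟩
  | succ n ih =>
    obtain ⟨m, Y, Z, h1, h2, rfl⟩ := rn_append _ _ _ _ _ _ h
    obtain ⟨v1, rfl, rfl, h3⟩ := ih _ _ h1
    obtain ⟨v2, h4, rfl, h5⟩ := rn_N _ _ _ _ _ _ h2
    obtain ⟨v, rfl, rfl⟩ := cop_par (al_cop _ _ t.mul_inv).pow_left h4
    refine ⟨v, by ring, by congr 1 <;> (try rw [cg]) <;> ring, ?_⟩
    rintro rfl x hx
    rcases List.mem_append.1 hx with hx | hx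
    · exact h3 (by simp) x hx
    · simpa using h5 (by simp) x hx

theorem rn_Pp (t : Rˣ) (n : ℕ) (a d : R) (s r X) (h : Rn t (pw wP n) (two a d s) r X) :
    ∃ v, d = al (↑t) ↑t⁻¹ ^ n * v ∧
      r = two (a - cg (↑t) (↑t⁻¹) n * v) (al (↑t⁻¹) ↑t ^ n * v) s ∧ (v = 0 → ∀ x ∈ X, x = a) := by
  induction n generalizing r X with
  | zero =>
    obtain ⟨rfl, rfl⟩ := h
    exact ⟨d, by simp, by simp [cg], by simp⟩
  | succ n ih =>
    obtain ⟨m, Y, Z, h1, h2, rfl⟩ := rn_append _ _ _ _ _ _ h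
    obtain ⟨v1, rfl, rfl, h3⟩ := ih _ _ h1
    obtain ⟨v2, h4, rfl, h5⟩ := rn_P _ _ _ _ _ _ h2
    obtain ⟨v, rfl, rfl⟩ := cop_par (al_cop _ _ t.mul_inv).symm.pow_left h4
    refine ⟨v, by ring, ?_, ?_⟩
    · congr 1
      · rw [cg]
        linear_combination (-v) * (cg_eq _ _ t.mul_inv n).2
      · ring
    rintro rfl x hx
    rcases List.mem_append.1 hx with hx | hx
    · exact h3 (by simp) x hx
    · simpa using h5 (by simp) x hx

end Pool.Agent.MP_ca7024_gt.H42
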