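import Pool.Agent.MP_ca7024_gt.H42.Ctx

/-! A crossing change divides the number of colourings over `ZMod 5` by at most `5`. -/

set_option linter.unusedSimpArgs false

namespace Pool.Agent.MP_ca7024_gt.H42

open H50 H50.Kind

/-- difference of the colours below a crossing -/
def lam : ℕ → List CA → ZMod 5
  | 0, a :: b :: _ => a.2 - b.2
  | q + 1, _ :: s => lam q s
  | _, _ => 0

theorem lam_sub (q : ℕ) (s s₀ : List CA) (h : s.length = s₀.length) :
    lam q (sub s s₀) = lam q s - lam q s₀ := by
  induction q generalizing s s₀ with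
  | zero =>
    rcases s with _ | ⟨a, _ | ⟨b, s⟩⟩ <;> rcases s₀ with _ | ⟨a₀, _ | ⟨b₀, s₀⟩⟩ <;>
      simp [lam, sub] at h ⊢
    ring
  | succ q ih =>
    rcases s with _ | ⟨a, s⟩ <;> rcases s₀ with _ | ⟨a₀, s₀⟩ <;> simp [lam] at h ⊢
    · rfl
    · exact ih s s₀ h

theorem lam_zero (q : ℕ) (s : List CA) (h : lam q s = 0) : step QA q ov s = step QA q un s := by
  induction q generalizing s with
  | zero =>
    rcases s with _ | ⟨⟨a, x⟩, _ | ⟨⟨b, y⟩, s⟩⟩
    · rfl
    · rfl
    obtain rfl : x = y := sub_eq_zero.1 h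
    simp [QA]
  | succ q ih =>
    rcases s with _ | ⟨a, s⟩
    · rfl
    rw [step_succ, step_succ, ih s h]

theorem change_ineq (u v : List Gen) (q : ℕ) (a : Bool) :
    Multiset.card (run QA (u ++ (q, cr a) :: v) []) ≤
      5 * Multiset.card (run QA (u ++ (q, cr !a) :: v) []) := by
  have key : ∀ a, Multiset.card (run QA (u ++ (q, cr a) :: v) []) =
      ((lifts u).map fun ou => ((lifts v).map fun ov =>
        ((runO ou []).map fun s => Multiset.card (runO (((q, cr a), true) :: ov) s)).sum).sum).sum := by
    intro a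
    have e : ∀ s, run QA ((q, cr a) :: v) s =
        (lifts v).bind fun ov => runO (((q, cr a), true) :: ov) s := by
      intro s
      rw [run_lifts, lifts, if_neg (by cases a <;> simp [cr]), Multiset.bind_map]
    rw [run_append, run_lifts u, funext e, Multiset.bind_assoc, Multiset.card_bind]
    congr 1
    refine Multiset.map_congr rfl fun ou _ => ?_
    simp only [Function.comp]
    rw [Multiset.bind_bind, Multiset.card_bind]
    congr 1
    refine Multiset.map_congr rfl fun ov _ => ?_
    simp only [Function.comp]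
    rw [Multiset.card_bind]
    rfl
  rw [key, key, ← Multiset.sum_map_mul_left]
  refine Multiset.sum_map_le_sum_map _ _ fun ou hou => ?_
  rw [← Multiset.sum_map_mul_left]
  refine Multiset.sum_map_le_sum_map _ _ fun ov hov => ?_
  have hsh : ∀ s ∈ runO ou [], ∀ s₀ ∈ runO ou [], shape s = shape s₀ :=
    fun s hs s₀ hs₀ => (runO_sub ou [] [] s₀ rfl hs₀).1 s hs
  refine key_ineq _ _ _ (lam q) ?_ ?_ ?_ ?_
  · intro s₀ hs₀
    exact (runO_sub ou [] [] s₀ rfl hs₀).2
  · intro s hs s₀ hs₀ hf
    obtain ⟨r₀, hr₀⟩ := Multiset.card_pos_iff_exists_mem.1 (Nat.pos_of_ne_zero hf)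
    have := Multiset.card_le_card (runO_sub _ s s₀ r₀ (hsh s hs s₀ hs₀) hr₀).2
    rwa [Multiset.card_map] at this
  · intro s hs s₀ hs₀
    exact lam_sub q s s₀ (by simpa [shape] using congrArg List.length (hsh s hs s₀ hs₀))
  · intro s _ hl
    rw [runO_cons, runO_cons, stepO_eq _ _ _ (by cases a <;> simp [cr]),
      stepO_eq _ _ _ (by cases a <;> simp [cr])]
    cases a <;> simp [cr, lam_zero q s hl]

theorem dirs_cr (q : ℕ) (o : List Bool) : dirs q ov o = dirs q un o := by
  induction q generalizing o with
  | zero => rcases o with _ | ⟨a, _ | ⟨b, o⟩⟩ <;> rfl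
  | succ q ih =>
    rcases o with _ | ⟨a, o⟩
    · rfl
    simp [dirs, ih]

theorem change_QB (u v : List Gen) (q : ℕ) (a : Bool) :
    run QB (u ++ (q, cr a) :: v) [] = run QB (u ++ (q, cr !a) :: v) [] := by
  rw [run_append, run_append]
  refine Multiset.bind_congr fun o _ => ?_
  cases a <;> simp [cr, step_QB, dirs_cr]

section
variable {C : Type} [Fintype C] [DecidableEq C] (Q : SQ C)

/-- all slices of the colourings -/
def runS : List Gen → List C → Multiset (List (List C))
  | [], _ => {[]}
  | g :: w, s => (step Q g.1 g.2 s).bind fun r => (runS w r).map (r :: ·)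

theorem card_runS (w : List Gen) (s : List C) :
    Multiset.card (runS Q w s) = Multiset.card (run Q w s) := by
  induction w generalizing s with
  | nil => rfl
  | cons g w ih => simp [runS, Multiset.card_bind, Function.comp_def, ih]

theorem nodup_step (p : ℕ) (k : Kind) (s : List C) : (step Q p k s).Nodup := by
  induction p generalizing s with
  | zero =>
    cases k
    · rw [step_cup]
      exact Finset.univ.nodup.map fun _ _ h => (List.cons.inj h).1
    all_goals
      rcases s with _ | ⟨a, _ | ⟨b, s⟩⟩ <;> simp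
    split_ifs <;> simp
  | succ p ih =>
    rcases s with _ | ⟨a, s⟩
    · simp
    · rw [step_succ]
      exact (ih s).map List.cons_injective

theorem nodup_runS (w : List Gen) (s : List C) : (runS Q w s).Nodup := by
  induction w generalizing s with
  | nil => simp [runS]
  | cons g w ih =>
    refine Multiset.nodup_bind.2 ⟨fun r _ => (ih r).map List.cons_injective,
      (nodup_step Q _ _ _).pairwise fun a _ b _ hab => ?_⟩
    simp only [Function.onFun, Multiset.disjoint_left, Multiset.mem_map]
    rintro _ ⟨x, -, rfl⟩ ⟨y, -, h⟩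
    exact hab (List.cons.inj h).1.symm

end

theorem runS_shape (w : List Gen) (s : List CA) (S : List (List CA)) (h : S ∈ runS QA w s) :
    S.map shape ∈ runS QB w (shape s) := by
  induction w generalizing s S with
  | nil =>
    simp only [runS, Multiset.mem_singleton] at h ⊢
    simp [h]
  | cons g w ih =>
    simp only [runS, Multiset.mem_bind, Multiset.mem_map] at h ⊢
    obtain ⟨r, h1, S', h2, rfl⟩ := h
    exact ⟨shape r, step_hom QA QB Prod.fst (fun _ => rfl) (fun _ _ => rfl) _ _ _ _ h1, _,
      ih r S' h2, rfl⟩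

/-- the unit `2` -/
def t5 : (ZMod 5)ˣ := ⟨2, 3, by decide, by decide⟩

theorem act_t5 (a b : CA) : act t5 a b = QA.act a b := by
  obtain ⟨e, x⟩ := a
  cases e <;> rfl

theorem step_slice (p : ℕ) (k : Kind) (s r : List CA) (h : r ∈ step QA p k s) :
    Slice t5 p k s r := by
  induction p generalizing s r with
  | zero =>
    cases k
    · simp only [step_cup, Multiset.mem_map] at h
      obtain ⟨c, -, rfl⟩ := h
      cases s <;> exact ⟨c, rfl⟩
    all_goals
      rcases s with _ | ⟨a, _ | ⟨b, s⟩⟩ <;> simp at h
    · split_ifs at h with h' <;> simp at h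
      exact ⟨h', h⟩
    · exact h.trans (by rw [← act_t5])
    · exact h.trans (by rw [← act_t5]; rfl)
  | succ p ih =>
    rcases s with _ | ⟨a, s⟩
    · simp at h
    simp only [step_succ, Multiset.mem_map] at h
    obtain ⟨r', h', rfl⟩ := h
    cases k <;> exact ⟨r', ih s r' h', rfl⟩

theorem runS_col (w : List Gen) (s : List CA) (S : List (List CA)) (h : S ∈ runS QA w s) :
    Col t5 w s S := by
  induction w generalizing s S with
  | nil => exact Multiset.mem_singleton.1 h
  | cons g w ih =>
    simp only [runS, Multiset.mem_bind, Multiset.mem_map] at h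
    obtain ⟨r, h1, S', h2, rfl⟩ := h
    exact ⟨r, S', step_slice _ _ _ _ h1, ih r S' h2, rfl⟩

theorem alex_bound (w : List Gen) (h : AlexOne w) :
    Multiset.card (run QA w []) ≤ 5 * Multiset.card (run QB w []) := by
  have : runS QA w [] ≤ (Finset.univ.val : Multiset (ZMod 5)).bind fun c =>
      (runS QB w []).map fun O => O.map (List.map (·, c)) := by
    refine (Multiset.le_iff_subset (nodup_runS QA w [])).2 fun S hS => ?_
    obtain ⟨c, hc⟩ := h _ t5 S (runS_col w [] S hS)
    refine Multiset.mem_bind.2 ⟨c, by simp, Multiset.mem_map.2 ⟨_, runS_shape w [] S hS, ?_⟩⟩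
    rw [List.map_map]
    refine (List.map_congr_left fun s hs => ?_).trans (List.map_id _)
    simp only [Function.comp, shape, List.map_map, id]
    refine (List.map_congr_left fun x hx => ?_).trans (List.map_id _)
    exact Prod.ext rfl (hc s hs x hx).symm
  have := Multiset.card_le_card this
  simp [card_runS, Multiset.card_bind, Function.comp_def] at this
  omega

theorem alg_bound (w : List Gen) (p q : ℕ) (h : AlgUnknots w p q) :
    Multiset.card (run QA w []) ≤ 5 ^ (p + q) * (5 * Multiset.card (run QB w [])) := by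
  have k : ∀ e w w₁ w₂ m, Iso w w₁ → Change e w₁ w₂ →
      Multiset.card (run QA w₂ []) ≤ 5 ^ m * (5 * Multiset.card (run QB w₂ [])) →
      Multiset.card (run QA w []) ≤ 5 ^ (m + 1) * (5 * Multiset.card (run QB w [])) := by
    rintro e w _ _ m h1 ⟨u, v, -, q, a, -, -, -, rfl, rfl⟩ h3
    rw [iso_run_eq QA _ _ h1, iso_run_eq QB _ _ h1, change_QB, pow_succ', mul_assoc]
    exact (change_ineq u v q a).trans (Nat.mul_le_mul_left _ h3)
  induction h with
  | zero w h => simpa using alex_bound w h
  | pos w w₁ w₂ p n h1 h2 _ ih => rw [Nat.add_right_comm]; exact k _ _ _ _ _ h1 h2 ih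
  | neg w w₁ w₂ p n h1 h2 _ ih => exact k _ _ _ _ _ h1 h2 ih

/-- at least `k` colourings from `s` to `r` -/
def Lb (s : List CA) (w : List Gen) (r : List CA) (k : ℕ) : Prop := k ≤ (run QA w s).count r

theorem Lb.app {s m r : List CA} {u v : List Gen} {k l : ℕ} (h : Lb s u m k) (h' : Lb m v r l) :
    Lb s (u ++ v) r (k * l) := by
  have := Multiset.count_le_of_le r (bind_mono (f := run QA v)
    (Multiset.le_count_iff_replicate_le.1 h) fun _ _ => le_rfl)
  rw [← run_append, Multiset.count_bind, Multiset.map_replicate, Multiset.sum_replicate] at this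
  exact (Nat.mul_le_mul_left k h').trans this

theorem lb_of (s r : List CA) (w : List Gen) (k : ℕ)
    (h : k ≤ (runO (w.map (·, false)) s).count r) : Lb s w r k := by
  have := Multiset.count_le_of_le r (runO_le (w.map (·, false)) s)
  rw [List.map_map, show Prod.fst ∘ (fun g : Gen => (g, false)) = id from rfl, List.map_id] at this
  exact h.trans this

/-- four strands of one colour -/
def cs (a : ZMod 5) : List CA := [(false, a), (false, a), (true, a), (true, a)]

theorem lb_pw {w : List Gen} {a : ZMod 5} (h : Lb (cs a) w (cs a) 1) (n : ℕ) :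
    Lb (cs a) (pw w n) (cs a) 1 := by
  induction n with
  | zero => simp [Lb, pw]
  | succ n ih => exact ih.app h

theorem pw_succ' (w : List Gen) (n : ℕ) : pw w (n + 1) = w ++ pw w n := by
  induction n with
  | zero => simp [pw]
  | succ n ih => rw [pw, ih, List.append_assoc, ← pw, ih]

theorem lb_block (a : ZMod 5) (g : ℕ) :
    Lb (cs a) (pw wN (g + 1) ++ pw wP (g + 1)) (cs a) 5 := by
  have h1 : ∀ a, 1 ≤ (runO (wN.map (·, false)) (cs a)).count (cs a) := by decide +kernel
  have h2 : ∀ a, 1 ≤ (runO (wP.map (·, false)) (cs a)).count (cs a) := by decide +kernel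
  have h3 : ∀ a, 5 ≤ (runO ((wN ++ wP).map (·, false)) (cs a)).count (cs a) := by decide +kernel
  have := ((lb_pw (lb_of _ _ _ _ (h1 a)) g).app (lb_of _ _ _ _ (h3 a))).app
    (lb_pw (lb_of _ _ _ _ (h2 a)) g)
  rw [pw_succ' wP, pw]
  simpa using this

end Pool.Agent.MP_ca7024_gt.H42
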