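import Pool.Agent.MP_ca7024_gt.H42.Up
import Pool.Agent.MP_ca7024_gt.H42.Low

/-! The family of mutants. -/

set_option linter.unusedSimpArgs false

namespace Pool.Agent.MP_ca7024_gt.H42

open H50 H50.Kind

/-- the two lowest minima -/
def bot : List Gen := [(0, cup), (1, cup)]

/-- the blocks -/
def bl : List ℕ → List Gen
  | [] => []
  | g :: L => bl L ++ (pw wN g ++ pw wP g)

theorem pure_bl (L : List ℕ) : Pure (bl L) := by
  induction L with
  | nil => exact pure_nil
  | cons g L ih => exact ih.app ((pure_pw pure_N g).app (pure_pw pure_P g))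

theorem tan_bl (L : List ℕ) : Tangle 0 (bot ++ bl L) 4 := by
  induction L with
  | nil => exact tangle_of_B _ _ _ (by decide)
  | cons g L ih =>
    rw [bl, ← List.append_assoc]
    exact tapp ih (tangle_add _ _ _ 2 ((fing_pw fing_N g).app (fing_pw fing_P g)).tx)

theorem alex_base (Z : List Gen) (γ : La) (h : Out Z γ) : AlexOne (bot ++ Z) := by
  intro R _ t S hS
  obtain ⟨r, X, h1, h2⟩ := col_rn t _ _ _ hS
  obtain ⟨_, _, _, ⟨⟨e1, a⟩, rfl, rfl⟩, ⟨_, _, X, ⟨_, ⟨⟨e2, b⟩, rfl, rfl⟩, rfl⟩, h3, rfl⟩, rfl⟩ :=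
    h1
  obtain ⟨h4, h5⟩ := rn_both _ _ _ _ _ h3
  obtain rfl : r = [] := by
    rw [← Multiset.mem_coe, ← run_QB] at h4
    simpa using tangle_unique Z _ _ _ (tangle_of_mem QB Z _ _ h4) h.tan
  obtain rfl : e1 = e2 := (h.ori e1 e2).1 h4
  have key : ∀ t : Rˣ, Rn t Z [(true, a), (true, b), (false, b), (false, a)] [] X →
      b = a ∧ ∀ x ∈ X, x = a := fun t h0 => by
    obtain ⟨k1, k2⟩ := h.col R t a (a - b) a b X (by simpa [two] using h0)
    exact ⟨by linear_combination -k1, k2 rfl⟩
  obtain ⟨rfl, k⟩ : b = a ∧ ∀ x ∈ X, x = a := by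
    cases e1
    exacts [key _ h5, key _ h3]
  exact ⟨b, h2 b (by simp) (by simpa using k)⟩

theorem upper (L : List ℕ) (Z : List Gen) (γ : La) (h : Out Z γ) (p q : ℕ)
    (hpq : p + q = L.length) : AlgUnknots (bot ++ bl L ++ Z) p q := by
  induction L generalizing Z γ p q with
  | nil =>
    obtain ⟨rfl, rfl⟩ : p = 0 ∧ q = 0 := by simpa using hpq
    exact .zero _ (by simpa [bl] using alex_base Z γ h)
  | cons g L ih =>
    have key : ∀ e, ∃ w₁ Z' γ', Iso (bot ++ bl (g :: L) ++ Z) w₁ ∧
        Change e w₁ (bot ++ bl L ++ Z') ∧ Out Z' γ' := fun e => by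
      obtain ⟨M, γ', hM, hZ⟩ := step Z γ h g e
      refine ⟨_, _, γ', by
        simpa [bl] using (hM.app (fing_C e)).close.symm.iso _ Z 2 (tan_bl L) h.tan,
        ⟨bot ++ bl L ++ cups ++ M, (3, cr e) :: (caps ++ Z),
          [true, true, false, true, false, true, false, false], 3, !e, ?_, ?_, by cases e <;> simp,
          by simp, by simp⟩, hZ⟩
      · refine mem_orients_append _ _ _ _ _ (mem_orients_append _ _ _ [true, true, false, false] _
          (mem_orients_append _ _ _ [true, true, false, false] _ (by decide) ?_)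
          (by decide : [true, true, false, true, false, true, false, false] ∈ _)) ?_
        · rw [pure_bl]; simp
        · rw [hM.pure]; simp
      · exact mem_orients_append ([(3, cr !e), (3, cr e)] ++ caps) Z
          [true, true, false, true, false, true, false, false] [true, true, false, false] _
          (by cases e <;> decide) ((h.ori true true).2 rfl)
    rcases p with _ | p
    · obtain ⟨q, rfl⟩ : ∃ q', q = q' + 1 := ⟨q - 1, by simp at hpq; omega⟩
      obtain ⟨w₁, Z', γ', h1, h2, h3⟩ := key false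
      exact .neg _ _ _ _ _ h1 h2 (ih Z' γ' h3 0 q (by simpa using hpq))
    · obtain ⟨w₁, Z', γ', h1, h2, h3⟩ := key true
      exact .pos _ _ _ _ _ h1 h2 (ih Z' γ' h3 p q (by simp at hpq; omega))

theorem alg_iso {w w' : List Gen} {p q : ℕ} (h : Iso w w') (h' : AlgUnknots w' p q)
    (h0 : p + q ≠ 0) : AlgUnknots w p q := by
  cases h' with
  | zero => exact absurd rfl h0
  | pos _ w₁ w₂ p n h1 h2 h3 => exact .pos _ _ _ _ _ (.trans _ _ _ h h1) h2 h3
  | neg _ w₁ w₂ p n h1 h2 h3 => exact .neg _ _ _ _ _ (.trans _ _ _ h h1) h2 h3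

theorem alg_more (v : List Gen) (hv : Tangle 2 v 0) (ho : [] ∈ orients v [false, true]) (i : ℕ)
    (hi : i ≠ 0) (h : ∀ p q, p + q = i → AlgUnknots ((0, cup) :: v) p q) (k p q : ℕ)
    (hk : p + q = i + k) : AlgUnknots ((0, cup) :: v) p q := by
  have h1 : ∀ a, Iso ((0, cup) :: (0, cr a) :: v) ((0, cup) :: v) := fun a => .rel _ _
    ⟨⟨by simp [win], by cases a <;> exact ⟨le_rfl, hv⟩⟩, ⟨by simp [win], hv⟩, [], _, _, v,
      .r1cup 0 a, rfl, rfl⟩
  have h2 : ∀ e, Change e ((0, cup) :: (0, cr !e) :: v) ((0, cup) :: (0, cr !!e) :: v) :=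
    fun e => ⟨[(0, cup)], v, [true, false], 0, !e, by decide,
      mem_orients_append [(0, cr !e)] v _ [false, true] _ (by cases e <;> decide) ho,
      by cases e <;> simp, rfl, rfl⟩
  induction k generalizing p q with
  | zero => exact h p q hk
  | succ k ih =>
    rcases p with _ | p
    · obtain ⟨q, rfl⟩ : ∃ q', q = q' + 1 := ⟨q - 1, by omega⟩
      exact .neg _ _ _ _ _ (.symm _ _ (h1 _)) (h2 false)
        (alg_iso (h1 _) (ih 0 q (by omega)) (by omega))
    · exact .pos _ _ _ _ _ (.symm _ _ (h1 _)) (h2 true)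
        (alg_iso (h1 _) (ih p q (by omega)) (by omega))

theorem ori_K (L : List ℕ) (a b s) :
    orients (bl L ++ tail) (a :: b :: s) = orients tail (a :: b :: s) := by
  rw [orients_append, pure_bl]; simp

theorem knot_K (L : List ℕ) : IsKnot (bot ++ bl L ++ tail) := by
  refine ⟨tapp (tan_bl L) out_tail.tan, ?_⟩
  rw [List.append_assoc, orients_append]
  simp only [bot, orients, dirs, List.flatMap_cons, List.flatMap_nil, List.map_cons, List.map_nil,
    List.cons_append, List.nil_append, ori_K]
  decide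

theorem lb_bl (L : List ℕ) (hL : ∀ g ∈ L, g ≠ 0) (a : ZMod 5) :
    Lb (cs a) (bl L) (cs a) (5 ^ L.length) := by
  induction L with
  | nil => simp [Lb, bl]
  | cons g L ih =>
    obtain ⟨g, rfl⟩ := Nat.exists_eq_succ_of_ne_zero (hL g (by simp))
    exact (ih fun g hg => hL g (by simp [hg])).app (lb_block a g)

theorem lower (L : List ℕ) (hL : ∀ g ∈ L, g ≠ 0) (p q : ℕ)
    (h : AlgUnknots (bot ++ bl L ++ tail) p q) : L.length ≤ p + q := by
  have h1 := alg_bound _ _ _ h
  rw [run_QB, Multiset.coe_card, (knot_K L).2] at h1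
  have h2 : ∀ a, 1 ≤ (runO ([(1, cup)].map (·, false)) [(false, a), (true, a)]).count (cs a) := by
    decide +kernel
  have h3 : ∀ a, 1 ≤ (runO (tail.map (·, false)) (cs a)).count [] := by decide +kernel
  have h4 := Multiset.card_le_card (bind_mono (f := run QA ([(1, cup)] ++ bl L ++ tail))
    (stepO_le false 0 cup []) fun _ _ => le_rfl)
  rw [stepO_cup, Multiset.bind_map, Multiset.card_bind] at h4
  have h5 := (Multiset.card_nsmul_le_sum (a := 5 ^ L.length) fun y hy => by
    obtain ⟨a, -, rfl⟩ := Multiset.mem_map.1 hy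
    have := ((lb_of _ _ _ _ (h2 a)).app (lb_bl L hL a)).app (lb_of _ _ _ _ (h3 a))
    rw [one_mul, mul_one] at this
    exact this.trans (Multiset.count_le_card _ _)).trans h4
  have h6 := h5.trans h1
  rw [Multiset.card_map, Finset.card_val, Finset.card_univ, ZMod.card, smul_eq_mul] at h6
  by_contra h7
  have := Nat.pow_le_pow_right (by omega : 0 < 5) (by omega : p + q + 1 ≤ L.length)
  have := Nat.pow_pos (n := p + q) (by omega : 0 < 5)
  omega

theorem exact_K (L : List ℕ) (hL : ∀ g ∈ L, g ≠ 0) (h0 : L.length ≠ 0) (p q : ℕ) :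
    AlgUnknots (bot ++ bl L ++ tail) p q ↔ L.length ≤ p + q := by
  refine ⟨lower L hL p q, fun h => ?_⟩
  refine alg_more ((1, cup) :: (bl L ++ tail)) (knot_K L).1.2 ?_ _ h0
    (upper L tail _ out_tail) (p + q - L.length) p q (by omega)
  refine mem_orients_append [(1, cup)] (bl L ++ tail) _ [false, false, true, true] _
    (by decide) ?_
  rw [ori_K]
  decide

/-- words in the two string links -/
def flat : List Bool → List Gen
  | [] => []
  | b :: l => (if b then wN else wP) ++ flat l

theorem flat_append (l l' : List Bool) : flat (l ++ l') = flat l ++ flat l' := by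
  induction l <;> simp [flat, *]

theorem tan_flat (l : List Bool) : Tangle 4 (flat l) 4 := by
  induction l with
  | nil => rfl
  | cons b l ih => exact tapp (tangle_of_B _ _ _ (by cases b <;> decide)) ih

theorem mutant_perm {l l' : List Bool} (h : l.Perm l') (u : List Gen) (hu : Tangle 0 u 4) :
    Mutant (u ++ flat l ++ tail) (u ++ flat l' ++ tail) := by
  induction h generalizing u with
  | nil => exact .refl
  | cons b _ ih =>
    simpa [flat] using ih (u ++ if b then wN else wP)
      (tapp hu (tangle_of_B _ _ _ (by cases b <;> decide)))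
  | swap x y l =>
    refine .single (.inr ⟨u, flat [y, x], flat [x, y], flat l ++ tail, 4, 0, hu, by omega,
      tangle_of_B _ _ _ (by cases x <;> cases y <;> decide), tapp (tan_flat l) out_tail.tan,
      .inr (.inl (by cases x <;> cases y <;> decide)), ?_, ?_⟩) <;> simp [sh_zero, flat]
  | trans _ _ ih ih' => exact (ih u hu).trans (ih' u hu)

/-- the word of a list of blocks -/
def code : List ℕ → List Bool
  | [] => []
  | g :: L => code L ++ (List.replicate g true ++ List.replicate g false)

theorem flat_code (L : List ℕ) : flat (code L) = bl L := by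
  have : ∀ b g, flat (List.replicate g b) = pw (if b then wN else wP) g := fun b g => by
    induction g with
    | zero => rfl
    | succ g ih => rw [List.replicate_succ, flat, ih, pw_succ']
  induction L with
  | nil => rfl
  | cons g L ih => simp [code, bl, flat_append, ih, this]

theorem count_code (L : List ℕ) (b : Bool) : (code L).count b = L.sum := by
  induction L with
  | nil => rfl
  | cons g L ih => cases b <;> simp [code, ih, List.count_replicate, add_comm]

theorem main (n : ℕ) : ∃ K : ℕ → List Gen, (∀ i ∈ Set.Icc 1 n, IsKnot (K i)) ∧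
    (∀ i ∈ Set.Icc 1 n, ∀ j ∈ Set.Icc 1 n, Mutant (K i) (K j)) ∧
    ∀ i ∈ Set.Icc 1 n, ∀ p q, AlgUnknots (K i) p q ↔ i ≤ p + q := by
  refine ⟨fun i => bot ++ bl ((n - i + 1) :: List.replicate (i - 1) 1) ++ tail,
    fun i _ => knot_K _, fun i hi j hj => ?_, fun i hi p q => ?_⟩
  · simp only [← flat_code]
    refine mutant_perm (List.perm_iff_count.2 fun b => ?_) _ (tangle_of_B _ _ _ (by decide))
    simp only [count_code, List.sum_cons, List.sum_replicate, smul_eq_mul, Set.mem_Icc] at *
    omega
  · rw [exact_K _ (by simp) (by simp), List.length_cons, List.length_replicate,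
      Nat.sub_add_cancel hi.1]

end Pool.Agent.MP_ca7024_gt.H42
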