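import Pool.Agent.MP_ca7024_gt.H42.Ctx

/-! Colourings of tangles over a commutative ring. -/

set_option linter.unusedSimpArgs false

namespace Pool.Agent.MP_ca7024_gt.H42

open H50 H50.Kind

variable {R : Type} [CommRing R]

/-- one letter, with the colour of a new minimum -/
def St (t : Rˣ) : ℕ → Kind → List (Bool × R) → List (Bool × R) → List R → Prop
  | 0, cup, s, r, X => ∃ c, r = c :: bar c :: s ∧ X = [c.2]
  | 0, cap, a :: b :: s, r, X => b = bar a ∧ r = s ∧ X = []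
  | 0, ov, a :: b :: s, r, X => r = act t a b :: a :: s ∧ X = []
  | 0, un, a :: b :: s, r, X => r = b :: act t (bar b) a :: s ∧ X = []
  | p + 1, k, a :: s, r, X => ∃ r', St t p k s r' X ∧ r = a :: r'
  | _, _, _, _, _ => False

/-- a word, with the colours of its minima -/
def Rn (t : Rˣ) : List Gen → List (Bool × R) → List (Bool × R) → List R → Prop
  | [], s, r, X => r = s ∧ X = []
  | g :: w, s, r, X => ∃ m Y Z, St t g.1 g.2 s m Y ∧ Rn t w m r Z ∧ X = Y ++ Z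

theorem rn_append (t : Rˣ) (u v : List Gen) (s r : List (Bool × R)) (X : List R)
    (h : Rn t (u ++ v) s r X) : ∃ m Y Z, Rn t u s m Y ∧ Rn t v m r Z ∧ X = Y ++ Z := by
  induction u generalizing s X with
  | nil => exact ⟨s, [], X, ⟨rfl, rfl⟩, h, rfl⟩
  | cons g u ih =>
    obtain ⟨m, Y, Z, h1, h2, rfl⟩ := h
    obtain ⟨m', Y', Z', h3, h4, rfl⟩ := ih m Z h2
    exact ⟨m', Y ++ Y', Z', ⟨m, Y, Y', h1, h3, rfl⟩, h4, by simp⟩

theorem slice_st (t : Rˣ) (p : ℕ) (k : Kind) (s r : List (Bool × R)) (h : Slice t p k s r) :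
    ∃ X, St t p k s r X ∧ ∀ c, (∀ x ∈ s, x.2 = c) → (∀ x ∈ X, x = c) → ∀ x ∈ r, x.2 = c := by
  induction p generalizing s r with
  | zero =>
    cases k
    · have h' : ∃ c, r = c :: bar c :: s := by cases s <;> exact h
      obtain ⟨c, rfl⟩ := h'
      refine ⟨[c.2], by cases s <;> exact ⟨c, rfl, rfl⟩, fun d h1 h2 => ?_⟩
      simp only [List.forall_mem_cons] at h2 ⊢
      exact ⟨h2.1, h2.1, h1⟩
    all_goals
      rcases s with _ | ⟨a, _ | ⟨b, s⟩⟩
      · exact h.elim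
      · exact h.elim
    · obtain ⟨h, rfl⟩ := h
      exact ⟨[], ⟨h, rfl, rfl⟩, fun d h1 _ x hx => h1 x (by simp [hx])⟩
    · obtain rfl := h
      refine ⟨[], ⟨rfl, rfl⟩, fun d h1 _ => ?_⟩
      simp only [List.forall_mem_cons] at h1 ⊢
      exact ⟨by simp [act, h1.1, h1.2.1], h1.1, h1.2.2⟩
    · obtain rfl := h
      refine ⟨[], ⟨rfl, rfl⟩, fun d h1 _ => ?_⟩
      simp only [List.forall_mem_cons] at h1 ⊢
      exact ⟨h1.2.1, by simp [act, bar, h1.1, h1.2.1], h1.2.2⟩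
  | succ p ih =>
    rcases s with _ | ⟨a, s⟩
    · cases k <;> exact h.elim
    have h' : ∃ r', Slice t p k s r' ∧ r = a :: r' := by cases k <;> exact h
    obtain ⟨r', h1, rfl⟩ := h'
    obtain ⟨X, h2, h3⟩ := ih s r' h1
    refine ⟨X, by cases k <;> exact ⟨r', h2, rfl⟩, fun c h4 h5 => ?_⟩
    simp only [List.forall_mem_cons] at h4 ⊢
    exact ⟨h4.1, h3 c h4.2 h5⟩

theorem col_rn (t : Rˣ) (w : List Gen) (s : List (Bool × R)) (S : List (List (Bool × R)))
    (h : Col t w s S) : ∃ r X, Rn t w s r X ∧ ∀ c, (∀ x ∈ s, x.2 = c) → (∀ x ∈ X, x = c) →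
      ∀ s' ∈ S, ∀ x ∈ s', x.2 = c := by
  induction w generalizing s S with
  | nil =>
    obtain rfl := h
    exact ⟨s, [], ⟨rfl, rfl⟩, by simp⟩
  | cons g w ih =>
    obtain ⟨m, S', h1, h2, rfl⟩ := h
    obtain ⟨Y, h3, h4⟩ := slice_st t _ _ _ _ h1
    obtain ⟨r, Z, h5, h6⟩ := ih m S' h2
    refine ⟨r, Y ++ Z, ⟨m, Y, Z, h3, h5, rfl⟩, fun c h7 h8 => ?_⟩
    have h9 := h4 c h7 fun x hx => h8 x (by simp [hx])
    simp only [List.forall_mem_cons]
    exact ⟨h9, h6 c h9 fun x hx => h8 x (by simp [hx])⟩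

theorem st_both (t : Rˣ) (p : ℕ) (k : Kind) (s r : List (Bool × R)) (X : List R)
    (h : St t p k s r X) : r.map Prod.fst ∈ dirs p k (s.map Prod.fst) ∧
      St t⁻¹ p k (s.map bar) (r.map bar) X := by
  induction p generalizing s r with
  | zero =>
    cases k
    · have h' : ∃ c, r = c :: bar c :: s ∧ X = [c.2] := by cases s <;> exact h
      obtain ⟨⟨e, c⟩, rfl, rfl⟩ := h'
      refine ⟨by cases s <;> cases e <;> simp [dirs, bar], ?_⟩
      cases s <;> exact ⟨bar (e, c), rfl, rfl⟩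
    all_goals
      rcases s with _ | ⟨⟨e, a⟩, _ | ⟨⟨f, b⟩, s⟩⟩
      · exact h.elim
      · exact h.elim
    · obtain ⟨h, rfl, rfl⟩ := h
      rw [h]
      exact ⟨by simp [dirs, bar], rfl, rfl, rfl⟩
    · obtain ⟨rfl, rfl⟩ := h
      exact ⟨by simp [dirs, act], by cases e <;> simp [bar, act], rfl⟩
    · obtain ⟨rfl, rfl⟩ := h
      exact ⟨by simp [dirs, act], by cases f <;> simp [bar, act], rfl⟩
  | succ p ih =>
    rcases s with _ | ⟨a, s⟩
    · cases k <;> exact h.elim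
    have h' : ∃ r', St t p k s r' X ∧ r = a :: r' := by cases k <;> exact h
    obtain ⟨r', h1, rfl⟩ := h'
    obtain ⟨h2, h3⟩ := ih s r' h1
    refine ⟨?_, by cases k <;> exact ⟨_, h3, rfl⟩⟩
    have : dirs (p + 1) k (a.1 :: s.map Prod.fst) = (dirs p k (s.map Prod.fst)).map (a.1 :: ·) := by
      cases k <;> rfl
    rw [List.map_cons, List.map_cons, this]
    exact List.mem_map_of_mem h2

theorem rn_both (t : Rˣ) (w : List Gen) (s r : List (Bool × R)) (X : List R)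
    (h : Rn t w s r X) : r.map Prod.fst ∈ orients w (s.map Prod.fst) ∧
      Rn t⁻¹ w (s.map bar) (r.map bar) X := by
  induction w generalizing s X with
  | nil =>
    obtain ⟨rfl, rfl⟩ := h
    exact ⟨by simp [orients], rfl, rfl⟩
  | cons g w ih =>
    obtain ⟨m, Y, Z, h1, h2, rfl⟩ := h
    obtain ⟨h3, h4⟩ := st_both t _ _ _ _ _ h1
    obtain ⟨h5, h6⟩ := ih m Z h2
    exact ⟨List.mem_flatMap.2 ⟨_, h3, h5⟩, _, Y, Z, h4, h6, rfl⟩

/-- two strands and two fingers -/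
def six (a b x D u E : R) (s : List (Bool × R)) : List (Bool × R) :=
  (true, a) :: (true, b) :: (false, x - D) :: (true, x) :: (false, u - E) :: (true, u) :: s

/-- the action of a word on two strands and two fingers -/
def Eff (t : Rˣ) (W : List Gen) (y yb f h hb : R) : Prop :=
  ∀ a b x D u E s r X, Rn t W (six a b x D u E s) r X → X = [] ∧
    r = six (a + (1 - ↑t⁻¹) * yb * D) (b - ↑t⁻¹ * (1 - ↑t⁻¹) * yb * D)
      (x + (t - 1) * y * (a - b) + f * D - (1 - ↑t⁻¹) * h * E) D (u - (1 - ↑t⁻¹) * hb * D) E s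

theorem six_congr {a b x D u E a' b' x' D' u' E' : R} {s : List (Bool × R)} (h1 : a = a')
    (h2 : b = b') (h3 : x = x') (h4 : D = D') (h5 : u = u') (h6 : E = E') :
    six a b x D u E s = six a' b' x' D' u' E' s := by rw [h1, h2, h3, h4, h5, h6]

theorem rn_O (t : Rˣ) (a b x D u E : R) (s r X) (h : Rn t wO (six a b x D u E s) r X) : X = [] ∧
    r = six a (b + (1 - ↑t⁻¹) * D) ((1 - ↑t⁻¹) ^ 2 * D + (1 - ↑t⁻¹) * b + ↑t⁻¹ * x) (↑t⁻¹ * D)
      u E s := by
  have := t.mul_inv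
  simp [Rn, St, wO, six, act, bar] at h ⊢
  obtain ⟨rfl, rfl⟩ := h
  simp
  grind

theorem rn_O' (t : Rˣ) (a b x D u E : R) (s r X) (h : Rn t wO' (six a b x D u E s) r X) : X = [] ∧
    r = six a (b + (1 - t) * D) ((1 - t) * b + t * x) (t * D) u E s := by
  have := t.mul_inv
  simp [Rn, St, wO', six, act, bar] at h ⊢
  obtain ⟨rfl, rfl⟩ := h
  simp
  grind

end Pool.Agent.MP_ca7024_gt.H42
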