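import Pool.Agent.MP_ca7024_gt.H42.Eff

/-! One crossing change for each block. -/

set_option linter.unusedSimpArgs false

namespace Pool.Agent.MP_ca7024_gt.H42

open H50 H50.Kind LaurentPolynomial

theorem inv_al : invert (al tt ss) = al ss tt := by simp [al]
theorem inv_al' : invert (al ss tt) = al tt ss := by simp [al]

theorem norm_pow (g : ℕ) : ∃ n : La, invert n = n ∧
    al tt ss ^ g * al ss tt ^ g = 1 + (tt + ss - 2) * n := by
  have h := tt_ss
  induction g with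
  | zero => exact ⟨0, by simp, by simp⟩
  | succ g ih =>
    obtain ⟨n, h1, h2⟩ := ih
    have h3 : al tt ss * al ss tt = 1 + (tt + ss - 2) * (tt ^ 2 + tt + ss + ss ^ 2) := by
      unfold al; grind
    refine ⟨n + (tt ^ 2 + tt + ss + ss ^ 2) + (tt + ss - 2) * n * (tt ^ 2 + tt + ss + ss ^ 2),
      by simp [h1, map_ofNat]; ring, ?_⟩
    rw [pow_succ, pow_succ, mul_mul_mul_comm, h2, h3]
    ring

theorem alg (g : ℕ) (ε : La) (h1 : ε * ε = 1) (h2 : invert ε = ε) : ∃ y g0 : La, invert g0 = g0 ∧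
    al tt ss ^ g * al ss tt ^ g * (1 - ε * (tt + ss - 2) * g0) + ε * (tt + ss - 2) * (tt - ss) *
      (y * (al ss tt ^ g) ^ 2 - invert y * (al tt ss ^ g) ^ 2) = 1 := by
  have h := tt_ss
  have c1 : IsCoprime (al tt ss) (1 - ss) := ⟨1, -(tt - 1 - ss), by unfold al; grind⟩
  have c2 : IsCoprime (al tt ss) (1 + ss) := ⟨-1, tt - 1 + ss, by unfold al; grind⟩
  have c3 : IsCoprime (al tt ss) tt := ⟨0, ss, by grind⟩
  have c4 : IsCoprime (al tt ss) ε := ⟨0, ε, by grind⟩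
  have c5 : IsCoprime (al tt ss ^ g) (ε * (tt + ss - 2) * (tt - ss) * (al ss tt ^ g) ^ 2) := by
    have e : ε * (tt + ss - 2) * (tt - ss) = ε * tt ^ 2 * (1 - ss) ^ 3 * (1 + ss) := by grind
    rw [e]
    exact ((((c4.mul_right c3.pow_right).mul_right c1.pow_right).mul_right c2).mul_right
      (al_cop _ _ h).pow_right.pow_right).pow_left
  obtain ⟨k, y, hk⟩ := c5
  have hk' := congrArg invert hk
  simp only [map_add, map_mul, map_pow, map_sub, inv_al, inv_al', inv_tt, inv_ss, h2, map_one,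
    map_ofNat] at hk'
  obtain ⟨n, hn, hn'⟩ := norm_pow g
  have hA : invert (al tt ss ^ g) = al ss tt ^ g := by rw [map_pow, inv_al]
  have hB : invert (al ss tt ^ g) = al tt ss ^ g := by rw [map_pow, inv_al']
  generalize al tt ss ^ g = A at *
  generalize al ss tt ^ g = B at *
  obtain ⟨G, hG⟩ : ∃ G, G = k * invert k +
    (ε * (tt + ss - 2) * (tt - ss)) ^ 2 * y * invert y * A * B := ⟨_, rfl⟩
  have hZ : A * B * G + ε * (tt + ss - 2) * (tt - ss) * (y * B ^ 2 - invert y * A ^ 2) = 1 := by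
    rw [hG]
    linear_combination (invert k * B) * hk +
      (1 - y * (ε * (tt + ss - 2) * (tt - ss) * B ^ 2)) * hk'
  have hG' : invert G = G := by
    rw [hG]
    simp [h2, hA, hB, map_ofNat]
    ring
  refine ⟨y, ε * n * G + (tt - ss) * (y * B ^ 2 - invert y * A ^ 2), ?_, ?_⟩
  · simp [h2, hA, hB, hn, hG']
    ring
  · have : 1 - ε * (tt + ss - 2) * (ε * n * G + (tt - ss) * (y * B ^ 2 - invert y * A ^ 2)) =
        G := by
      linear_combination (-1 : La) * hZ + G * hn' - (tt + ss - 2) * n * G * h1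
    rw [this, hZ]

variable {R : Type} [CommRing R]

theorem cramer {m12 m13 m21 m22 m23 m31 m32 m33 r v w D : R} (e1 : m12 * w + m13 * D = 0)
    (e2 : m21 * v + m22 * w + m23 * D = r) (e3 : m31 * v + m32 * w + m33 * D = 0)
    (h : m12 * (m21 * m33 - m23 * m31) - m13 * (m21 * m32 - m22 * m31) = 1) :
    v = r * (m12 * m33 - m13 * m32) ∧ w = r * (m13 * m31) ∧ D = -r * (m12 * m31) :=
  ⟨by linear_combination (-v) * h - (m22 * m33 - m23 * m32) * e1 + (m12 * m33 - m13 * m32) * e2 -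
      (m12 * m23 - m13 * m22) * e3,
    by linear_combination (-w) * h + (m21 * m33 - m23 * m31) * e1 + (m13 * m31) * e2 -
      (m13 * m21) * e3,
    by linear_combination (-D) * h - (m21 * m32 - m22 * m31) * e1 - (m12 * m31) * e2 +
      (m12 * m21) * e3⟩

theorem solve {A B Cg y yb γ g0 ε τ s r v w D : R} (ht : τ * s = 1) (hcg : (1 + s) * Cg = A - B)
    (hy : A * B * (1 - ε * (τ + s - 2) * g0) + ε * (τ + s - 2) * (τ - s) *
      (y * B ^ 2 - yb * A ^ 2) = 1) (e1 : A * w + -(1 - s ^ 2) * D = 0)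
    (e2 : B * v + (B - γ * Cg) * w + (-(1 - s ^ 2) * yb + γ * (1 - s)) * D = γ * r)
    (e3 : -(ε * (τ - 1) ^ 2 * A) * v + ε * (τ - 1) ^ 2 * y * B * w +
      (1 - ε * (τ - 1) * (1 - s) * (1 - s + g0 + (τ - 1) * (1 + γ))) * D = 0) :
    B * v - (1 - s ^ 2) * yb * D = γ * (1 - A * B * ε * (τ + s - 2) * (τ - 1) * (γ + 1 + s)) * r ∧
      (r = 0 → v = 0 ∧ w = 0 ∧ D = 0) := by
  obtain rfl : A = B + (1 + s) * Cg := by linear_combination -hcg
  obtain ⟨k1, k2, k3⟩ := cramer e1 e2 e3 (by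
    refine Eq.trans ?_ hy
    clear e1 e2 e3 hy hcg
    grind)
  refine ⟨?_, by rintro rfl; simp [k1, k2, k3]⟩
  subst k1 k2 k3
  clear e1 e2 e3 hcg
  linear_combination (norm := (clear hy; grind)) γ * r * hy

theorem rn_clasp (t : Rˣ) (e : Bool) (a b x D u E : R) (s r X)
    (h : Rn t ([(3, cr e), (3, cr e)] ++ caps) (six a b x D u E s) r X) :
    X = [] ∧ r = (true, a) :: (true, b) :: s ∧ E = -D ∧
      D = (if e then 1 else -1) * (t - 1) * (x - (u - E)) := by
  have := t.mul_inv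
  obtain ⟨m, Y, Z, h1, h2, rfl⟩ := rn_append t _ _ _ _ _ h
  obtain ⟨rfl, rfl⟩ := rn_go t _ (by cases e <;> decide) _ _ _ h1
  cases e <;> simp [Rn, St, go, go1, act, bar, six, caps, cr] at h2 ⊢
  all_goals
    obtain ⟨h3, ⟨h4, h5⟩, h6⟩ := h2
    refine ⟨h5, h6, ?_, ?_⟩ <;> grind

/-- the part of the diagram above a block -/
structure Out (Z : List Gen) (γ : La) : Prop where
  tan : Tangle 4 Z 0
  ori : ∀ a b, [] ∈ orients Z [a, b, !b, !a] ↔ a = b
  sym : γ + ss * invert γ = -(1 + ss)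
  col : ∀ (R : Type) [CommRing R] (t : Rˣ) (a d a0 b0 : R) (X : List R),
    Rn t Z (two a d [(false, b0), (false, a0)]) [] X →
      d = ev t γ * (a0 - a) ∧ (a0 = a → ∀ x ∈ X, x = a)

/-- a crossing and the closure -/
def tail : List Gen := [(0, ov), (1, cap), (0, cap)]

theorem out_tail : Out tail (-ss) := by
  refine ⟨tangle_of_B _ _ _ (by decide), by decide, by simp [mul_comm ss tt, tt_ss, add_comm], ?_⟩
  intro R _ t a d a0 b0 X h
  have := t.mul_inv
  simp [Rn, St, tail, two, act, bar] at h ⊢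
  obtain ⟨h1, h2, rfl⟩ := h
  refine ⟨?_, by simp⟩
  grind

theorem symid (t s γ K : R) (h : t * s = 1) : γ * (1 - K * (t - 1) * (γ + 1 + s)) +
    s * (-t * (γ + 1 + s) * (1 - K * (s - 1) * (-t * (γ + 1 + s) + 1 + t))) = -(1 + s) := by
  grind

@[simp] theorem ev_al (t : Rˣ) : ev t (al tt ss) = al (↑t) ↑t⁻¹ := by simp [al]
@[simp] theorem ev_al' (t : Rˣ) : ev t (al ss tt) = al (↑t⁻¹) ↑t := by simp [al]

theorem step (Z : List Gen) (γ : La) (h : Out Z γ) (g : ℕ) (e : Bool) :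
    ∃ M γ', Fing M (pw wN g ++ pw wP g) ∧
      Out (cups ++ (M ++ [(3, cr e), (3, cr e)]) ++ caps ++ Z) γ' := by
  have hts := tt_ss
  obtain ⟨y, g0, hg0, hy⟩ := alg g (if e then 1 else -1) (by cases e <;> simp) (by cases e <;> simp)
  have hγ : invert γ = -tt * (γ + 1 + ss) := by have := h.sym; grind
  obtain ⟨c, p, hp⟩ := symdec (g0 + (tt - 1) * (1 + γ)) (by simp [hg0, hγ]; grind)
  obtain ⟨f1, ⟨W1, a1, b1⟩, W3, a3, b3⟩ := re_y y
  obtain ⟨W2, a2, b2⟩ := (re_U.app (re_c c)).app (re_h p)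
  have hM := (((a1.app (fing_pw fing_N g)).app a2).app (fing_pw fing_P g)).app a3
  have hc : Pure6 [(3, cr e), (3, cr e)] := fun _ _ _ _ _ _ _ => by cases e <;> rfl
  have hP := pure_wrap (hM.pure.app hc)
  refine ⟨W1 ++ pw wN g ++ W2 ++ pw wP g ++ W3, γ * (1 - al tt ss ^ g * al ss tt ^ g * (if e then 1 else -1) * (tt + ss - 2) *
    (tt - 1) * (γ + 1 + ss)), by simpa using hM, ?_, fun a b => ?_, ?_, ?_⟩
  · exact tapp (tapp (tapp (tangle_of_B cups 4 8 (by decide)) (tapp (tangle_add _ _ _ 2 hM.tan)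
      (tangle_of_B _ 8 8 (by cases e <;> decide)))) (tangle_of_B caps 8 4 (by decide))) h.tan
  · rw [orients_append, hP]
    simpa using h.ori a b
  · simp only [map_mul, map_sub, map_add, map_pow, inv_al, inv_al', hγ, inv_tt, inv_ss, map_one,
      map_ofNat]
    have := symid tt ss γ
      (al tt ss ^ g * al ss tt ^ g * (if e then 1 else -1) * (tt + ss - 2)) hts
    cases e <;> simp only [if_true, if_false, Bool.false_eq_true, map_neg, map_one] at this ⊢ <;>
      linear_combination this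
  intro R _ t a d a0 b0 X q0
  have ht := t.mul_inv
  obtain ⟨m4, Y, X5, q1, r5, rfl⟩ := rn_append t _ _ _ _ _ q0
  clear q0
  rw [List.append_assoc, List.append_assoc] at q1
  obtain ⟨m0, X0, Y, r0, hr, rfl⟩ := rn_append t _ _ _ _ _ q1
  clear q1
  obtain ⟨_, _, _, ⟨_, ⟨⟨e1, c1⟩, rfl, rfl⟩, rfl⟩, ⟨_, _, _, ⟨_, ⟨⟨e2, c2⟩, rfl, rfl⟩, rfl⟩,
    ⟨rfl, rfl⟩, rfl⟩, rfl⟩ := r0
  have hd := (rn_both _ _ _ _ _ hr).1
  rw [← List.append_assoc, orients_append] at hd
  simp only [List.map_cons, bar] at hd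
  rw [hM.pure.app hc] at hd
  obtain ⟨rfl, rfl⟩ : e1 = true ∧ e2 = true := by
    cases e1 <;> cases e2 <;> simp [caps, orients, dirs] at hd ⊢
  clear hd
  have e0 : ((true, a) :: (true, c2) :: bar (true, c2) :: (true, c1) :: bar (true, c1) ::
      (true, a - d) :: [(false, b0), (false, a0)] : List (Bool × R)) =
      six a c2 c1 (c1 - c2) (a - d) (a - d - c1) [(false, b0), (false, a0)] := by simp [six, bar]
  rw [e0] at hr
  obtain ⟨m3, Y, X4, q4, r4, rfl⟩ := rn_append t _ _ _ _ _ hr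
  obtain ⟨m3, Y, X3, q3, r3, rfl⟩ := rn_append t _ _ _ _ _ q4
  obtain ⟨m3, Y, XP, q2, rP, rfl⟩ := rn_append t _ _ _ _ _ q3
  obtain ⟨m3, Y, X2, q1, r2, rfl⟩ := rn_append t _ _ _ _ _ q2
  obtain ⟨m3, X1, XN, r1, rN, rfl⟩ := rn_append t _ _ _ _ _ q1
  clear hr q4 q3 q2 q1
  have st : ∀ a b x D u E : R, ∀ s, six a b x D u E s = two a (a - b)
      ((false, x - D) :: (true, x) :: (false, u - E) :: (true, u) :: s) := by simp [six, two]
  have ts : ∀ a d x D u E : R, ∀ s, two a d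
      ((false, x - D) :: (true, x) :: (false, u - E) :: (true, u) :: s) =
      six a (a - d) x D u E s := fun _ _ _ _ _ _ _ => rfl
  obtain ⟨rfl, rfl⟩ := b1 R t _ _ _ _ _ _ _ _ _ r1
  rw [st] at rN
  obtain ⟨v, hv, rfl, hN⟩ := rn_Np t g _ _ _ _ _ rN
  rw [ts] at r2
  obtain ⟨rfl, rfl⟩ := b2 R t _ _ _ _ _ _ _ _ _ r2
  rw [st] at rP
  obtain ⟨v', hv', rfl, hP'⟩ := rn_Pp t g _ _ _ _ _ rP
  rw [ts] at r3
  obtain ⟨rfl, rfl⟩ := b3 R t _ _ _ _ _ _ _ _ _ r3
  obtain ⟨rfl, rfl, hE, hD⟩ := rn_clasp t e _ _ _ _ _ _ _ _ _ r4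
  have tw : ∀ a b : R, ∀ s, (true, a) :: (true, b) :: s = two a (a - b) s := by simp [two]
  rw [tw] at r5
  obtain ⟨h5, h6⟩ := h.col R t _ _ _ _ _ r5
  have hy' := congrArg (ev t) hy
  have hp' := congrArg (ev t) hp
  have hcg := (cg_eq _ _ ht g).1
  obtain ⟨ε, hε⟩ : ∃ ε : R, ε = if e then 1 else -1 := ⟨_, rfl⟩
  have hε' : ev t (if e then 1 else -1) = ε := by rw [hε]; cases e <;> simp
  rw [← hε] at hD
  simp only [map_mul, map_sub, map_add, map_pow, map_neg, map_one, map_zero, map_ofNat, ev_al,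
    ev_al', ev_tt, ev_ss, hε', add_zero, zero_add, mul_zero, zero_mul, sub_zero, mul_one] at *
  obtain rfl : c2 = a - d := by linear_combination -hE
  obtain ⟨D, rfl⟩ : ∃ D, c1 = a - d + D := ⟨c1 - (a - d), by ring⟩
  obtain ⟨w, rfl⟩ : ∃ w, v' = v + w := ⟨v' - v, by ring⟩
  generalize al (↑t : R) ↑t⁻¹ ^ g = A at *
  generalize al (↑t⁻¹ : R) ↑t ^ g = B at *
  generalize cg (↑t : R) (↑t⁻¹) g = Cg at *
  generalize ev t y = y1 at *
  generalize ev t (invert y) = yb at *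
  generalize ev t γ = γ1 at *
  generalize (↑t⁻¹ : R) = s at *
  generalize (↑t : R) = τ at *
  have hd : d = B * v - (1 - s ^ 2) * yb * D := by linear_combination hv
  obtain ⟨k0, k⟩ := solve (γ := γ1) (r := a0 - a) (v := v) (w := w) (D := D) ht hcg hy'
    (by linear_combination -hv') (by linear_combination h5) (by
      linear_combination hD + ε * (τ - 1) ^ 2 * y1 * hd - ε * (τ - 1) * (1 - s) * D * hp')
  refine ⟨hd.trans k0, fun h0 => ?_⟩
  obtain ⟨rfl, rfl, rfl⟩ := k (sub_eq_zero.2 h0)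
  subst h0
  clear r1 rN r2 rP r3 r4 r5 hD h5 hv hv' hE e0
  simp only [mul_zero, sub_zero, add_zero, sub_self] at *
  subst hd
  simp only [List.nil_append, List.append_nil, List.cons_append, List.forall_mem_cons,
    List.mem_append, sub_zero, true_and]
  rintro x ((hx | hx) | hx)
  exacts [hN trivial x hx, hP' trivial x hx, h6 trivial x hx]

end Pool.Agent.MP_ca7024_gt.H42
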